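import Mathlib
import Pool.Agent.Lib.MP_31386d_pr.Translate
import Pool.Agent.Lib.MP_31386d_pr_POTTS.Main
import Pool.Agent.Lib.MP_31386d_pr_POTTS.QOne
import Pool.Agent.Lib.MP_31386d_pr_POTTS.QTwo

set_option autoImplicit false
open scoped Classical

namespace Pool.Agent.Lib.MP_31386d_pr_old.AllIntegerQ

/-- For every `d ≥ 3` and every integer `q ≥ 2` the slab critical points (infimum of the `p` at
which the free random-cluster measures on slabs of thickness `L` connect `0` to every vertex with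
probability bounded below) tend, as `L → ∞`, to `p_c(q)`. -/
theorem result :
    ∀ (d : ℕ), 3 ≤ d → ∀ (k : ℕ), 2 ≤ k → ∀ (q : ℝ), q = k →
    ∀ (E : Finset (Fin d → ℤ) → Finset (Sym2 (Fin d → ℤ))),
    (∀ B : Finset (Fin d → ℤ), E B =
        ((B ×ˢ B).filter (fun z : (Fin d → ℤ) × (Fin d → ℤ) =>
          (∑ i : Fin d, |z.1 i - z.2 i|) = 1)).image
            (fun z : (Fin d → ℤ) × (Fin d → ℤ) => s(z.1, z.2))) →
    ∀ (w : Finset (Fin d → ℤ) → Finset (Fin d → ℤ) → ℝ → Finset (Sym2 (Fin d → ℤ)) → ℝ),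
    (∀ (B W : Finset (Fin d → ℤ)) (p : ℝ) (ω : Finset (Sym2 (Fin d → ℤ))),
        w B W p ω = p ^ ω.card * (1 - p) ^ ((E B).card - ω.card) *
        q ^ ((SimpleGraph.fromEdgeSet (((ω : Set (Sym2 (Fin d → ℤ)))) ∪
              {e : Sym2 (Fin d → ℤ) | ∃ u ∈ W, ∃ v ∈ W, e = s(u, v)})).connectedComponentMk ''
              (B : Set (Fin d → ℤ))).ncard) →
    ∀ (Prob : Finset (Fin d → ℤ) → Finset (Fin d → ℤ) → ℝ → (Finset (Sym2 (Fin d → ℤ)) → Prop) → ℝ),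
    (∀ (B W : Finset (Fin d → ℤ)) (p : ℝ) (A : Finset (Sym2 (Fin d → ℤ)) → Prop),
        Prob B W p A =
        (∑ ω ∈ (E B).powerset.filter A, w B W p ω) / (∑ ω ∈ (E B).powerset, w B W p ω)) →
    ∀ (Box Bd : ℕ → Finset (Fin d → ℤ)),
    (∀ n : ℕ, Box n = Fintype.piFinset (fun _ : Fin d => Finset.Icc (-(n : ℤ)) (n : ℤ))) →
    (∀ n : ℕ, Bd n = (Box n).filter (fun x : Fin d → ℤ => ∃ i : Fin d, |x i| = (n : ℤ))) →
    ∀ (Slab : ℕ → ℕ → Finset (Fin d → ℤ)),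
    (∀ L n : ℕ, Slab L n = Fintype.piFinset (fun i : Fin d =>
        if i.val = 0 then Finset.Icc (0 : ℤ) ((L : ℤ) - 1) else Finset.Icc (-(n : ℤ)) (n : ℤ))) →
    Filter.Tendsto
      (fun L : ℕ => sInf {p : ℝ | p ∈ Set.Icc (0 : ℝ) 1 ∧ ∃ α : ℝ, 0 < α ∧
          ∀ n : ℕ, ∀ x ∈ Slab L n,
            α < Prob (Slab L n) ∅ p
              (fun ω : Finset (Sym2 (Fin d → ℤ)) =>
                (SimpleGraph.fromEdgeSet (ω : Set (Sym2 (Fin d → ℤ)))).Reachable 0 x)})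
      Filter.atTop
      (nhds (sInf {p : ℝ | p ∈ Set.Icc (0 : ℝ) 1 ∧ ∃ c : ℝ, 0 < c ∧
          ∀ n : ℕ, c < Prob (Box n) (Bd n) p
            (fun ω : Finset (Sym2 (Fin d → ℤ)) => ∃ y ∈ Bd n,
              (SimpleGraph.fromEdgeSet (ω : Set (Sym2 (Fin d → ℤ)))).Reachable 0 y)})) := by
  intro d hd k hk q hqk
  have hk2 : (2 : ℝ) ≤ k := by exact_mod_cast hk
  have hq : 1 < q := by rw [hqk]; linarith
  subst hqk
  refine Pool.Agent.Lib.MP_31386d_pr.translate d hd _ hq.le ?_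
  exact Pool.Agent.Lib.MP_31386d_pr_POTTS.main_slab d hd hq (by norm_num)
    (Pool.Agent.Lib.MP_31386d_pr_POTTS.q1_int k hk)
    (mul_pos (by linarith) (by linarith)) (Pool.Agent.Lib.MP_31386d_pr_POTTS.q2_int k hk)

end Pool.Agent.Lib.MP_31386d_pr_old.AllIntegerQ
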