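import Mathlib
import Pool.Agent.Lib.MP_31386d_pr.Numbers
import Pool.Agent.Lib.MP_31386d_pr.Slab
import Pool.Agent.Lib.MP_31386d_pr.Translate
import Pool.Agent.Lib.MP_31386d_pr.Struct

set_option autoImplicit false
open scoped Classical

namespace Pool.Agent.Lib.MP_31386d_pr_old.LargeQ

/-- For every `d ≥ 3` and every `q ≥ exp (80 d ^ 3 3 ^ d)` the slab critical points (infimum of
the `p` at which the free random-cluster measures on slabs of thickness `L` connect `0` to every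
vertex with probability bounded below) tend, as `L → ∞`, to `p_c(q)`. -/
theorem result :
    ∀ (d : ℕ), 3 ≤ d → ∀ (q : ℝ), Real.exp (80 * (d : ℝ) ^ 3 * 3 ^ d) ≤ q →
    ∀ (E : Finset (Fin d → ℤ) → Finset (Sym2 (Fin d → ℤ))),
    (∀ B : Finset (Fin d → ℤ), E B =
        ((B ×ˢ B).filter (fun z : (Fin d → ℤ) × (Fin d → ℤ) =>
          (∑ i : Fin d, |z.1 i - z.2 i|) = 1)).image
            (fun z : (Fin d → ℤ) × (Fin d → ℤ) => s(z.1, z.2))) →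
    ∀ (w : Finset (Fin d → ℤ) → Finset (Fin d → ℤ) → ℝ → Finset (Sym2 (Fin d → ℤ)) → ℝ),
    (∀ (B W : Finset (Fin d → ℤ)) (p : ℝ) (ω : Finset (Sym2 (Fin d → ℤ))),
        w B W p ω = p ^ ω.card * (1 - p) ^ ((E B).card - ω.card) *
        q ^ ((SimpleGraph.fromEdgeSet (((ω : Set (Sym2 (Fin d → ℤ)))) ∪
              {e : Sym2 (Fin d → ℤ) | ∃ u ∈ W, ∃ v ∈ W, e = s(u, v)})).connectedComponentMk ''
              (B : Set (Fin d → ℤ))).ncard) →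
    ∀ (Prob : Finset (Fin d → ℤ) → Finset (Fin d → ℤ) → ℝ → (Finset (Sym2 (Fin d → ℤ)) → Prop) → ℝ),
    (∀ (B W : Finset (Fin d → ℤ)) (p : ℝ) (A : Finset (Sym2 (Fin d → ℤ)) → Prop),
        Prob B W p A =
        (∑ ω ∈ (E B).powerset.filter A, w B W p ω) / (∑ ω ∈ (E B).powerset, w B W p ω)) →
    ∀ (Box Bd : ℕ → Finset (Fin d → ℤ)),
    (∀ n : ℕ, Box n = Fintype.piFinset (fun _ : Fin d => Finset.Icc (-(n : ℤ)) (n : ℤ))) →
    (∀ n : ℕ, Bd n = (Box n).filter (fun x : Fin d → ℤ => ∃ i : Fin d, |x i| = (n : ℤ))) →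
    ∀ (Slab : ℕ → ℕ → Finset (Fin d → ℤ)),
    (∀ L n : ℕ, Slab L n = Fintype.piFinset (fun i : Fin d =>
        if i.val = 0 then Finset.Icc (0 : ℤ) ((L : ℤ) - 1) else Finset.Icc (-(n : ℤ)) (n : ℤ))) →
    Filter.Tendsto
      (fun L : ℕ => sInf {p : ℝ | p ∈ Set.Icc (0 : ℝ) 1 ∧ ∃ α : ℝ, 0 < α ∧
          ∀ n : ℕ, ∀ x ∈ Slab L n,
            α < Prob (Slab L n) ∅ p
              (fun ω : Finset (Sym2 (Fin d → ℤ)) =>
                (SimpleGraph.fromEdgeSet (ω : Set (Sym2 (Fin d → ℤ)))).Reachable 0 x)})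
      Filter.atTop
      (nhds (sInf {p : ℝ | p ∈ Set.Icc (0 : ℝ) 1 ∧ ∃ c : ℝ, 0 < c ∧
          ∀ n : ℕ, c < Prob (Box n) (Bd n) p
            (fun ω : Finset (Sym2 (Fin d → ℤ)) => ∃ y ∈ Bd n,
              (SimpleGraph.fromEdgeSet (ω : Set (Sym2 (Fin d → ℤ)))).Reachable 0 y)})) := by
  intro d hd q hq
  have hq1 : 1 ≤ q := le_trans (Real.one_le_exp (by positivity)) hq
  obtain ⟨D, rfl⟩ : ∃ D, d = D + 1 := ⟨d - 1, by omega⟩
  have hD : 2 ≤ D := by omega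
  refine Pool.Agent.Lib.MP_31386d_pr.translate (D + 1) hd q hq1 ?_
  refine Pool.Agent.Lib.MP_31386d_pr.main_slab (D + 1) hd
    (fun N k ω _ hk hω => Pool.Agent.Lib.MP_31386d_pr.exists_good (by omega) _
      (Pool.Agent.Lib.MP_31386d_pr.rconn_Box_compl (by omega) N) ω hω k hk)
    Pool.Agent.Lib.MP_31386d_pr.rconn_Box
    (ε := (min (1 / (2 * 25 ^ D * (2 ^ D + 4))) 1 : ℝ) ^ (3 ^ D)) (by positivity)
    (Pool.Agent.Lib.MP_31386d_pr.slab_connect_explicit D hd)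
    (T := 4 * ((D + 1 : ℕ) : ℝ) ^ 2 * 3 ^ (D + 1))
    (fun t ht => Pool.Agent.Lib.MP_31386d_pr.cond_explicit hD ht) hq1 ?_
  refine le_trans (Real.exp_le_exp.mpr ?_) hq
  have h1 : (1 : ℝ) ≤ ((D + 1 : ℕ) : ℝ) := by exact_mod_cast (by omega : 1 ≤ D + 1)
  have h3 : (0 : ℝ) < 3 ^ (D + 1) := by positivity
  set y := ((D + 1 : ℕ) : ℝ) with hy
  have h4 : (16 * y + 4) * (4 * y ^ 2 * 3 ^ (D + 1)) = (64 * y ^ 3 + 16 * y ^ 2) * 3 ^ (D + 1) := by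
    ring
  rw [h4]
  apply mul_le_mul_of_nonneg_right _ h3.le
  nlinarith [sq_nonneg y, mul_nonneg (sq_nonneg y) (by linarith : (0 : ℝ) ≤ y - 1)]

end Pool.Agent.Lib.MP_31386d_pr_old.LargeQ
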